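import Pool.Agent.BEN.StmtsB

/-! Row JMU of squad BEN (MP_be01ff_an): the product of jets. -/

namespace Pool.Agent.BEN.H85

open Set Filter Topology MeasureTheory
open scoped InnerProductSpace ENNReal
open Pool.Agent.BE01 Pool.Agent.BEL Pool.Agent.BEF Pool.Agent.BEH Pool.Agent.BEN

noncomputable section

theorem coe_sum {T : Type} [MeasurableSpace T] {μ : Measure T} {p : ℝ≥0∞} {ι : Type}
    (A : Finset ι) (f : ι → Lp ℝ p μ) :
    ((∑ i ∈ A, f i : Lp ℝ p μ) : T → ℝ) =ᵐ[μ] fun z => ∑ i ∈ A, f i z := by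
  classical
  induction A using Finset.induction_on with
  | empty =>
    simp only [Finset.sum_empty]
    exact Lp.coeFn_zero _ _ _
  | insert a A ha ih =>
    rw [Finset.sum_insert ha]
    filter_upwards [Lp.coeFn_add (f a) (∑ i ∈ A, f i), ih] with z h1 h2
    rw [h1, Finset.sum_insert ha, Pi.add_apply, h2]

theorem sum_choose (j : ℕ) : ∑ i : Fin (j + 1), ((Nat.choose j (i : ℕ) : ℕ) : ℝ) = 2 ^ j := by
  rw [Fin.sum_univ_eq_sum_range (fun i => ((Nat.choose j i : ℕ) : ℝ)) (j + 1)]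
  have := Nat.sum_range_choose j
  exact_mod_cast this

theorem jmu (QEF : QefStmt) (HLD : HldStmt) : JmuStmt := by
  intro T _ μ _ s hs
  obtain ⟨-, -, -, -, -, hq⟩ := QEF s hs
  have hB : ∀ (j : Fin (s + 1)) (i : Fin ((j : ℕ) + 1)),
      ∃ B : Lp ℝ (qe s (i : ℕ)) μ →L[ℝ] Lp ℝ (qe s ((j : ℕ) - (i : ℕ))) μ →L[ℝ]
        Lp ℝ (qe s (j : ℕ)) μ,
        (∀ f g, B f g =ᵐ[μ] fun z => f z * g z) ∧ ∀ f g, ‖B f g‖ ≤ ‖f‖ * ‖g‖ := by
    intro j i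
    refine HLD T μ (qe s (i : ℕ)) (qe s ((j : ℕ) - (i : ℕ))) (qe s (j : ℕ)) ?_
    have hi : (i : ℕ) + ((j : ℕ) - (i : ℕ)) = (j : ℕ) := by have := i.2; omega
    have h := hq (i : ℕ) ((j : ℕ) - (i : ℕ)) (by have := j.2; omega)
    rw [hi] at h
    exact h
  choose B hB1 hB2 using hB
  have hlt1 : ∀ (j : Fin (s + 1)) (i : Fin ((j : ℕ) + 1)), (i : ℕ) < s + 1 := by
    intro j i; have := i.2; have := j.2; omega
  have hlt2 : ∀ (j : Fin (s + 1)) (i : Fin ((j : ℕ) + 1)), (j : ℕ) - (i : ℕ) < s + 1 := by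
    intro j i; have := j.2; omega
  let F : Jt s μ →ₗ[ℝ] Jt s μ →ₗ[ℝ] Jt s μ := LinearMap.mk₂ ℝ
    (fun x y j => ∑ i : Fin ((j : ℕ) + 1), ((Nat.choose (j : ℕ) (i : ℕ) : ℕ) : ℝ) •
      B j i (x ⟨(i : ℕ), hlt1 j i⟩) (y ⟨(j : ℕ) - (i : ℕ), hlt2 j i⟩))
    (by
      intro x x' y
      funext j
      simp only [Pi.add_apply, map_add, _root_.add_apply, smul_add,
        Finset.sum_add_distrib])
    (by
      intro c x y
      funext j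
      simp only [Pi.smul_apply, map_smul, _root_.smul_apply, Finset.smul_sum]
      refine Finset.sum_congr rfl fun i _ => ?_
      rw [smul_comm])
    (by
      intro x y y'
      funext j
      simp only [Pi.add_apply, map_add, smul_add, Finset.sum_add_distrib])
    (by
      intro c x y
      funext j
      simp only [Pi.smul_apply, map_smul, Finset.smul_sum]
      refine Finset.sum_congr rfl fun i _ => ?_
      rw [smul_comm])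
  have hF : ∀ x y j, F x y j = ∑ i : Fin ((j : ℕ) + 1), ((Nat.choose (j : ℕ) (i : ℕ) : ℕ) : ℝ) •
      B j i (x ⟨(i : ℕ), hlt1 j i⟩) (y ⟨(j : ℕ) - (i : ℕ), hlt2 j i⟩) := fun x y j => rfl
  have hb : ∀ x y, ‖F x y‖ ≤ 2 ^ s * ‖x‖ * ‖y‖ := by
    intro x y
    rw [pi_norm_le_iff_of_nonneg (by positivity)]
    intro j
    rw [hF]
    calc ‖∑ i : Fin ((j : ℕ) + 1), ((Nat.choose (j : ℕ) (i : ℕ) : ℕ) : ℝ) •
          B j i (x ⟨(i : ℕ), hlt1 j i⟩) (y ⟨(j : ℕ) - (i : ℕ), hlt2 j i⟩)‖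
        ≤ ∑ i : Fin ((j : ℕ) + 1), ‖((Nat.choose (j : ℕ) (i : ℕ) : ℕ) : ℝ) •
          B j i (x ⟨(i : ℕ), hlt1 j i⟩) (y ⟨(j : ℕ) - (i : ℕ), hlt2 j i⟩)‖ := norm_sum_le _ _
      _ ≤ ∑ i : Fin ((j : ℕ) + 1), ((Nat.choose (j : ℕ) (i : ℕ) : ℕ) : ℝ) * (‖x‖ * ‖y‖) := by
          refine Finset.sum_le_sum fun i _ => ?_
          rw [norm_smul, Real.norm_of_nonneg (Nat.cast_nonneg _)]
          refine mul_le_mul_of_nonneg_left ?_ (Nat.cast_nonneg _)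
          refine (hB2 j i _ _).trans ?_
          exact mul_le_mul (norm_le_pi_norm x _) (norm_le_pi_norm y _) (norm_nonneg _)
            (norm_nonneg _)
      _ = 2 ^ (j : ℕ) * (‖x‖ * ‖y‖) := by rw [← Finset.sum_mul, sum_choose]
      _ ≤ 2 ^ s * (‖x‖ * ‖y‖) := by
          refine mul_le_mul_of_nonneg_right ?_ (by positivity)
          exact pow_le_pow_right₀ (by norm_num) (by have := j.2; omega)
      _ = 2 ^ s * ‖x‖ * ‖y‖ := by ring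
  refine ⟨LinearMap.mkContinuous₂ F (2 ^ s) hb, ?_, ?_⟩
  · intro x y j hj
    have hj' : j < s + 1 := by omega
    have e1 : cmp (LinearMap.mkContinuous₂ F (2 ^ s) hb x y) j =
        (((F x y) ⟨j, hj'⟩ : Lp ℝ (qe s j) μ) : T → ℝ) := by
      unfold cmp
      rw [dif_pos hj']
      rfl
    rw [e1, hF]
    have h1 := coe_sum (μ := μ) (Finset.univ : Finset (Fin (j + 1)))
      (fun i => ((Nat.choose j (i : ℕ) : ℕ) : ℝ) •
        B ⟨j, hj'⟩ i (x ⟨(i : ℕ), hlt1 ⟨j, hj'⟩ i⟩) (y ⟨j - (i : ℕ), hlt2 ⟨j, hj'⟩ i⟩))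
    have h2 : ∀ᵐ z ∂μ, ∀ i : Fin (j + 1),
        (((Nat.choose j (i : ℕ) : ℕ) : ℝ) •
          B ⟨j, hj'⟩ i (x ⟨(i : ℕ), hlt1 ⟨j, hj'⟩ i⟩) (y ⟨j - (i : ℕ), hlt2 ⟨j, hj'⟩ i⟩) :
            Lp ℝ (qe s j) μ) z =
        (Nat.choose j (i : ℕ) : ℝ) * ((x ⟨(i : ℕ), hlt1 ⟨j, hj'⟩ i⟩ : T → ℝ) z *
          (y ⟨j - (i : ℕ), hlt2 ⟨j, hj'⟩ i⟩ : T → ℝ) z) := by
      rw [ae_all_iff]
      intro i
      filter_upwards [Lp.coeFn_smul ((Nat.choose j (i : ℕ) : ℕ) : ℝ)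
        (B ⟨j, hj'⟩ i (x ⟨(i : ℕ), hlt1 ⟨j, hj'⟩ i⟩) (y ⟨j - (i : ℕ), hlt2 ⟨j, hj'⟩ i⟩)),
        hB1 ⟨j, hj'⟩ i (x ⟨(i : ℕ), hlt1 ⟨j, hj'⟩ i⟩) (y ⟨j - (i : ℕ), hlt2 ⟨j, hj'⟩ i⟩)]
        with z g1 g2
      rw [g1, Pi.smul_apply, g2, smul_eq_mul]
    filter_upwards [h1, h2] with z g1 g2
    refine g1.trans ?_
    rw [← Fin.sum_univ_eq_sum_range
      (fun i => (Nat.choose j i : ℝ) * (cmp x i z * cmp y (j - i) z)) (j + 1)]
    refine Finset.sum_congr rfl fun i _ => ?_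
    rw [g2 i]
    unfold cmp
    rw [dif_pos (hlt1 ⟨j, hj'⟩ i), dif_pos (hlt2 ⟨j, hj'⟩ i)]
  · intro x y
    exact hb x y

end

end Pool.Agent.BEN.H85
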